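import Pool.Agent.H560R2.Mat6

/-!
# Monotone real programs for bipartite matching: gap and average case

Monotone real programs with at most `2 ^ w` gates do not tell random perfect matchings from the set
of the edges which touch a random small set `W` of vertices, `2 k |W| < n`.
-/

set_option autoImplicit false
set_option linter.unusedSectionVars false
set_option linter.unusedVariables false

open Finset

namespace Pool.Agent.U141.MG

open Pool.Agent.H560R2

/-- covers which are not small are rare -/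
lemma card_large_k {V : Type} [Fintype V] [DecidableEq V] {Q : ℕ} [NeZero Q] (B J m k : ℕ)
    (hV : Fintype.card V = 2 * m) (hm : 0 < m) (hk : 0 < k) (hBJ : 0 < B * J)
    (hQ : 16 * k * (B * J) ≤ Q) :
    {ω : Fin B → Fin J → V → Fin Q | m ≤ 2 * k * (WB ω).card}.ncard * 4 ≤
      ((Q ^ Fintype.card V) ^ J) ^ B := by
  classical
  let Om := ((Q ^ Fintype.card V) ^ J) ^ B
  let A : Finset (Fin B → Fin J → V → Fin Q) := univ.filter (fun ω => m ≤ 2 * k * (WB ω).card)
  have hA : {ω : Fin B → Fin J → V → Fin Q | m ≤ 2 * k * (WB ω).card} = (A : Set _) := by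
    ext ω; simp [A]
  have h2 : A.card * m ≤ 2 * k * ∑ v : V, {ω : Fin B → Fin J → V → Fin Q | v ∈ WB ω}.ncard := by
    calc A.card * m = ∑ ω ∈ A, m := by simp
      _ ≤ ∑ ω ∈ A, 2 * k * (WB ω).card :=
          Finset.sum_le_sum (fun ω hω => (Finset.mem_filter.mp hω).2)
      _ ≤ ∑ ω : Fin B → Fin J → V → Fin Q, 2 * k * (WB ω).card :=
          Finset.sum_le_sum_of_subset (Finset.subset_univ _)
      _ = 2 * k * ∑ ω : Fin B → Fin J → V → Fin Q, ∑ v : V, (if v ∈ WB ω then 1 else 0) := by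
          rw [Finset.mul_sum]
          apply Finset.sum_congr rfl
          intro ω _
          simp
      _ = 2 * k * ∑ v : V, ∑ ω : Fin B → Fin J → V → Fin Q, (if v ∈ WB ω then 1 else 0) := by
          rw [Finset.sum_comm]
      _ = 2 * k * ∑ v : V, {ω : Fin B → Fin J → V → Fin Q | v ∈ WB ω}.ncard := by
          congr 1
          apply Finset.sum_congr rfl
          intro v _
          have : {ω : Fin B → Fin J → V → Fin Q | v ∈ WB ω} =
              ((univ.filter (fun ω : Fin B → Fin J → V → Fin Q => v ∈ WB ω) :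
                Finset (Fin B → Fin J → V → Fin Q)) : Set _) := by ext ω; simp
          rw [this, Set.ncard_coe_finset]
          simp
  have h3 : A.card * m * Q ≤ 2 * k * ((2 * m) * (B * J * Om)) := by
    calc A.card * m * Q ≤
          (2 * k * ∑ v : V, {ω : Fin B → Fin J → V → Fin Q | v ∈ WB ω}.ncard) * Q :=
          Nat.mul_le_mul_right _ h2
      _ = 2 * k * ∑ v : V, {ω : Fin B → Fin J → V → Fin Q | v ∈ WB ω}.ncard * Q := by
          rw [mul_assoc, Finset.sum_mul]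
      _ ≤ 2 * k * ∑ v : V, B * J * Om :=
          Nat.mul_le_mul_left _ (Finset.sum_le_sum (fun v _ => card_wb B J v))
      _ = _ := by
          rw [Finset.sum_const, Finset.card_univ, hV, smul_eq_mul]
  rw [hA, Set.ncard_coe_finset]
  have h4 : (4 * k * m * (B * J)) * (A.card * 4) ≤ (4 * k * m * (B * J)) * Om := by
    calc (4 * k * m * (B * J)) * (A.card * 4) = A.card * m * (16 * k * (B * J)) := by ring
      _ ≤ A.card * m * Q := Nat.mul_le_mul_left _ hQ
      _ ≤ _ := h3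
      _ = _ := by ring
  exact Nat.le_of_mul_le_mul_left h4 (by positivity)

variable {n : ℕ}

/-- Short monotone real programs reject few small covers or accept few perfect matchings. -/
theorem match_avg (w lam k : ℕ) (hw : 1 ≤ w) (hk : 1 ≤ k) (hn : n < 2 ^ lam)
    (hbig : 2 ^ 63 * k ^ 4 * (lam + 1) ^ 8 * w ^ 8 ≤ n) :
    ∃ (Ω : Type) (_ : Fintype Ω) (Wc : Ω → Finset (Fin n ⊕ Fin n)), 0 < Fintype.card Ω ∧
      {ω : Ω | n ≤ 2 * k * (Wc ω).card}.ncard * 4 ≤ Fintype.card Ω ∧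
      ∀ (B0 : Set (Set (Fin n × Fin n) → ℝ)),
        (∀ b ∈ B0, ∃ T : Finset (Fin n × Fin n), T.card ≤ 1 ∧ LeafOnR T b) →
        ∀ {L : List (Set (Fin n × Fin n) → ℝ)}, RProg B0 L → L.length ≤ 2 ^ w →
        ∀ (f : Set (Fin n × Fin n) → ℝ), (f ∈ B0 ∨ f ∈ L) → ∀ θ : ℝ,
          {ω : Ω | ¬ θ ≤ f {e | Sum.inl e.1 ∈ Wc ω ∨ Sum.inr e.2 ∈ Wc ω}}.ncard * 2 ^ (w + 3) ≤
            Fintype.card Ω ∨
          {σ : Equiv.Perm (Fin n) | θ ≤ f {e | σ e.1 = e.2}}.ncard * 2 ≤
            Fintype.card (Equiv.Perm (Fin n)) := by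
  classical
  have hnpos : 0 < n := lt_of_lt_of_le (by positivity) hbig
  have hn63 : 2 ^ 63 ≤ n := by
    refine le_trans ?_ hbig
    calc 2 ^ 63 = 2 ^ 63 * 1 * 1 * 1 := by norm_num
      _ ≤ _ := by
        gcongr
        · exact Nat.one_le_pow _ _ hk
        · exact Nat.one_le_pow _ _ (by omega)
        · exact Nat.one_le_pow _ _ hw
  have hlam63 : 63 < lam := by
    by_contra h
    have h1 : 2 ^ lam ≤ 2 ^ 63 := Nat.pow_le_pow_right (by norm_num) (by omega)
    omega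
  have hlam : 1 ≤ lam := by omega
  obtain ⟨B, hBdef⟩ : ∃ B, B = 8 * lam * w := ⟨_, rfl⟩
  obtain ⟨J, hJdef⟩ : ∃ J, J = lam + 1 := ⟨_, rfl⟩
  obtain ⟨Q, hQdef⟩ : ∃ Q, Q = 16 * k * (B * J) := ⟨_, rfl⟩
  have hB3 : 3 ≤ B := by rw [hBdef]; nlinarith
  have hJ0 : 0 < J := by omega
  have hQ0 : 0 < Q := by rw [hQdef]; positivity
  have : NeZero Q := ⟨hQ0.ne'⟩
  have hQ8 : 8 * (B * J) ≤ Q := by
    rw [hQdef]
    exact Nat.mul_le_mul_right _ (by omega)
  obtain ⟨r, hrdef⟩ : ∃ r, r = 64 * Q := ⟨_, rfl⟩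
  obtain ⟨R, hRdef⟩ : ∃ R, R = 8 * w ^ 2 * r ^ 2 := ⟨_, rfl⟩
  obtain ⟨K, hKdef⟩ : ∃ K, K = n - w := ⟨_, rfl⟩
  have hw0 : 0 < w := hw
  have hr0 : 0 < r := by rw [hrdef]; positivity
  have hR1 : 1 ≤ R := by rw [hRdef]; exact Nat.succ_le_of_lt (by positivity)
  have hRval : 16 * R ^ 2 = 2 ^ 62 * k ^ 4 * (lam ^ 4 * (lam + 1) ^ 4) * w ^ 8 := by
    rw [hRdef, hrdef, hQdef, hBdef, hJdef]; ring
  have hlam8 : lam ^ 4 * (lam + 1) ^ 4 ≤ (lam + 1) ^ 8 := by
    calc lam ^ 4 * (lam + 1) ^ 4 ≤ (lam + 1) ^ 4 * (lam + 1) ^ 4 :=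
          Nat.mul_le_mul_right _ (Nat.pow_le_pow_left (by omega) 4)
      _ = _ := by ring
  have hKR : 16 * R ^ 2 + w ≤ n := by
    rw [hRval]
    have h1 : 2 ^ 62 * k ^ 4 * (lam ^ 4 * (lam + 1) ^ 4) * w ^ 8 ≤
        2 ^ 62 * k ^ 4 * (lam + 1) ^ 8 * w ^ 8 :=
      Nat.mul_le_mul_right _ (Nat.mul_le_mul_left _ hlam8)
    have h2 : w ≤ 2 ^ 62 * k ^ 4 * (lam + 1) ^ 8 * w ^ 8 := by
      calc w ≤ w ^ 8 := Nat.le_self_pow (by norm_num) w
        _ ≤ (2 ^ 62 * k ^ 4 * (lam + 1) ^ 8) * w ^ 8 := Nat.le_mul_of_pos_left _ (by positivity)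
    have h3 : 2 ^ 63 * k ^ 4 * (lam + 1) ^ 8 * w ^ 8 = 2 ^ 62 * k ^ 4 * (lam + 1) ^ 8 * w ^ 8 +
        2 ^ 62 * k ^ 4 * (lam + 1) ^ 8 * w ^ 8 := by ring
    calc 2 ^ 62 * k ^ 4 * (lam ^ 4 * (lam + 1) ^ 4) * w ^ 8 + w ≤
        2 ^ 62 * k ^ 4 * (lam + 1) ^ 8 * w ^ 8 + 2 ^ 62 * k ^ 4 * (lam + 1) ^ 8 * w ^ 8 :=
          Nat.add_le_add h1 h2
      _ = 2 ^ 63 * k ^ 4 * (lam + 1) ^ 8 * w ^ 8 := h3.symm
      _ ≤ n := hbig
  have hK16 : 16 * R ^ 2 ≤ K := by omega
  have hK4 : 4 * R ≤ K := by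
    refine le_trans ?_ hK16
    nlinarith
  have hwn : w < 2 ^ lam := by omega
  have hJ2 : 2 * w < 2 ^ J := by
    rw [hJdef, pow_succ]; omega
  refine ⟨Fin B → Fin J → (Fin n ⊕ Fin n) → Fin Q, inferInstance, WB, ?_, ?_, ?_⟩
  · rw [← Nat.card_eq_fintype_card, ← Set.ncard_univ, card_Om]
    exact Om_pos B J
  · rw [← Nat.card_eq_fintype_card, ← Set.ncard_univ, card_Om]
    exact card_large_k (V := Fin n ⊕ Fin n) (Q := Q) B J n k
      (by rw [Fintype.card_sum, Fintype.card_fin]; ring) hnpos hk (by positivity) hQdef.ge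
  intro B0 hleaf L hL hcon f hf θ
  obtain ⟨Ep, En, hEp, hEn, H⟩ := approxM (ends := bends (n := n)) (Q := Q) bends_card bends_inj
    B J w r R K hB3 hJ0 hw hQ8 hrdef.ge hRdef.ge hR1 hJ2 B0 hleaf pgr pgr_mt
    (fun Y hY => by
      rw [hKdef]
      exact card_perm (n := n) w (w + 1) Y hY le_rfl) hL
  obtain ⟨D, hD⟩ := H f hf
  set Om := ((Q ^ Fintype.card (Fin n ⊕ Fin n)) ^ J) ^ B with hOm
  have hOmpos : 0 < Om := Om_pos B J
  have hOmc : Fintype.card (Fin B → Fin J → (Fin n ⊕ Fin n) → Fin Q) = Om := by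
    rw [← Nat.card_eq_fintype_card, ← Set.ncard_univ, card_Om]
  rw [hOmc]
  by_cases hempty : ∅ ∈ D θ
  · -- the negative tests
    left
    have hcov : {ω : Fin B → Fin J → (Fin n ⊕ Fin n) → Fin Q |
        ¬ θ ≤ f {e | Sum.inl e.1 ∈ WB ω ∨ Sum.inr e.2 ∈ WB ω}} ⊆ En := by
      intro ω hω'
      by_contra hω
      have h1 := hD.neg ω hω θ ⟨∅, hempty, Finset.empty_subset _⟩
      apply hω'
      have e : (touch bends (WB ω) : Set (Fin n × Fin n)) =
          {e | Sum.inl e.1 ∈ WB ω ∨ Sum.inr e.2 ∈ WB ω} := by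
        ext e
        rw [Finset.mem_coe, mem_touch, Finset.not_disjoint_iff]
        simp [bends]
      rw [← e]
      exact h1
    have h1 := Set.ncard_le_ncard hcov (Set.toFinite _)
    -- the error is small
    set Tc := (Tm (bends (n := n)) w).card with hTc
    have hT1 : Tc ≤ 2 ^ (2 * lam * w) := by
      have h4 : Tc ≤ ((univ : Finset (Finset (Fin n × Fin n))).filter
          (fun Y => Y.card ≤ w)).card := by
        apply Finset.card_le_card
        intro S hS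
        rw [Finset.mem_filter]
        exact ⟨mem_univ _, (mem_Tm.mp hS).1⟩
      refine h4.trans ((card_small_sets w).trans ?_)
      rw [pow_mul]
      apply Nat.pow_le_pow_left
      rw [Fintype.card_prod, Fintype.card_fin]
      have h5 : n + 1 ≤ 2 ^ lam := hn
      calc n * n + 1 ≤ (n + 1) * (n + 1) := by nlinarith
        _ ≤ 2 ^ lam * 2 ^ lam := Nat.mul_le_mul h5 h5
        _ = 2 ^ (2 * lam) := by rw [← pow_add]; congr 1; ring
    have hT2 : Tc + 1 ≤ 2 ^ (2 * lam * w + 1) := by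
      have : 1 ≤ 2 ^ (2 * lam * w) := Nat.one_le_two_pow
      rw [pow_succ]; omega
    have h4 : En.ncard * 2 ^ B ≤ 2 ^ w * (2 ^ (2 * lam * w + 1) * (2 ^ (2 * lam * w) * Om)) :=
      hEn.trans (Nat.mul_le_mul hcon (Nat.mul_le_mul hT2 (Nat.mul_le_mul_right _ hT1)))
    have hBs : B = (w + (2 * lam * w + 1) + 2 * lam * w) + (w + 3) +
        (4 * lam * w - 2 * w - 4) := by
      have h6 : 6 * w ≤ 4 * lam * w := Nat.mul_le_mul_right _ (by omega)
      rw [hBdef]
      have : 8 * lam * w = 4 * lam * w + (2 * lam * w + 2 * lam * w) := by ring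
      omega
    have h5 : 2 ^ (w + (2 * lam * w + 1) + 2 * lam * w) * (En.ncard * 2 ^ (w + 3)) ≤
        2 ^ (w + (2 * lam * w + 1) + 2 * lam * w) * Om := by
      calc 2 ^ (w + (2 * lam * w + 1) + 2 * lam * w) * (En.ncard * 2 ^ (w + 3))
          = En.ncard * 2 ^ ((w + (2 * lam * w + 1) + 2 * lam * w) + (w + 3)) := by
            rw [pow_add _ (w + (2 * lam * w + 1) + 2 * lam * w) (w + 3)]; ring
        _ ≤ En.ncard * 2 ^ B := by
            apply Nat.mul_le_mul_left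
            apply Nat.pow_le_pow_right (by norm_num)
            omega
        _ ≤ _ := h4
        _ = _ := by
            rw [pow_add, pow_add]; ring
    have h6 := Nat.le_of_mul_le_mul_left h5 (by positivity)
    exact (Nat.mul_le_mul_right _ h1).trans h6
  · -- the positive tests
    right
    set Pc := Fintype.card (Equiv.Perm (Fin n)) with hPc
    have hPpos : 0 < Pc := Fintype.card_pos
    let g : Finset (Fin n × Fin n) → Prop := fun x => sat (D θ) x
    have hmem : ∀ l, ∀ S ∈ Mint g l, S ∈ D θ ∧ S ∈ minc D l := by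
      intro l S hS
      obtain ⟨h1, ⟨S', hS', hsub⟩, h3⟩ := (mem_Mint g l S).mp hS
      have hSS : S' = S := by
        by_contra hne
        exact h3 S' (Finset.ssubset_iff_subset_ne.mpr ⟨hsub, hne⟩) ⟨S', hS', subset_rfl⟩
      rw [hSS] at hS'
      exact ⟨hS', mem_minc.mpr ⟨h1, θ, hS', fun S'' hS'' hlt => h3 S'' hlt ⟨S'', hS'', subset_rfl⟩⟩⟩
    have hthin : ∀ l, 0 < l → l ≤ w → (Mint g l).card ≤ R ^ l := by
      intro l _ hl
      refine (Finset.card_le_card (fun S hS => (hmem l S hS).2)).trans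
        (minc_thin bends_card bends_inj B J w r R l hrdef.ge ?_ (by omega) hl D hD.closed
          hD.anti)
      rw [hRdef]
      exact Nat.mul_le_mul_right _ (Nat.mul_le_mul_left _ (Nat.pow_le_pow_left hl 2))
    have hcount := count_pos (pgr (n := n)) R 0 w (Nat.zero_le _) (by omega)
      (fun Y hY => by
        refine le_trans (Nat.mul_le_mul_left _ (Nat.pow_le_pow_left hK4 _)) ?_
        rw [hKdef]
        exact card_perm w Y.card Y rfl (by omega)) g hthin
      {σ | sat (D θ) (pgr σ)} (by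
        intro σ hσ
        obtain ⟨Y, hY1, hY2⟩ := exists_minterm g (pgr σ) hσ
        have h3 := (hmem _ Y hY2).1
        refine ⟨Y, hY1, hY2, ?_, (mem_Tm.mp ((hD.closed θ).1 h3)).1⟩
        rcases Nat.eq_zero_or_pos Y.card with h4 | h4
        · exfalso
          rw [Finset.card_eq_zero] at h4
          rw [h4] at h3
          exact hempty h3
        · exact h4)
    have hcov : {σ : Equiv.Perm (Fin n) | θ ≤ f {e | σ e.1 = e.2}} ⊆
        Ep ∪ {σ | sat (D θ) (pgr σ)} := by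
      intro σ hσ
      by_cases h : σ ∈ Ep
      · exact Or.inl h
      · right
        apply hD.pos σ h θ
        have e : (pgr σ : Set (Fin n × Fin n)) = {e | σ e.1 = e.2} := by
          ext e
          rw [Finset.mem_coe, mem_pgr]
          rfl
        rw [e]
        exact hσ
    have h1 := (Set.ncard_le_ncard hcov (Set.toFinite _)).trans (Set.ncard_union_le _ _)
    have h2 : 3 * ({σ | sat (D θ) (pgr σ)} : Set (Equiv.Perm (Fin n))).ncard ≤ Pc := by
      rw [pow_zero, mul_one] at hcount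
      have h3 : (3 * (({σ | sat (D θ) (pgr σ)} : Set (Equiv.Perm (Fin n))).ncard : ℚ)) ≤ Pc := by
        linarith
      exact_mod_cast h3
    -- the error is small
    have hw1 : (w + 1) ^ 2 ≤ 4 ^ w := by
      have h5 : w + 1 ≤ 2 ^ w := Nat.lt_two_pow_self
      calc (w + 1) ^ 2 ≤ (2 ^ w) ^ 2 := Nat.pow_le_pow_left h5 2
        _ = 4 ^ w := by rw [← pow_mul, mul_comm, pow_mul]; norm_num
    have h4 : Ep.ncard * K ^ (w + 1) ≤ 2 ^ w * ((4 ^ w * (R ^ 2) ^ w) * Pc) := by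
      refine hEp.trans (Nat.mul_le_mul hcon (Nat.mul_le_mul_right _ ?_))
      calc ((w + 1) * R ^ w) ^ 2 = (w + 1) ^ 2 * (R ^ 2) ^ w := by
            rw [mul_pow, ← pow_mul, ← pow_mul, mul_comm w 2]
        _ ≤ _ := Nat.mul_le_mul_right _ hw1
    have h5 : 2 ^ w * ((4 ^ w * (R ^ 2) ^ w) * Pc) * 2 ^ w ≤ K ^ w * Pc := by
      calc 2 ^ w * ((4 ^ w * (R ^ 2) ^ w) * Pc) * 2 ^ w
          = ((2 * 4 * R ^ 2 * 2) ^ w) * Pc := by
            rw [mul_pow, mul_pow, mul_pow]; ring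
        _ = (16 * R ^ 2) ^ w * Pc := by ring_nf
        _ ≤ _ := Nat.mul_le_mul_right _ (Nat.pow_le_pow_left hK16 w)
    have hK8 : 8 ≤ K := by
      have : 1 ≤ R ^ 2 := Nat.one_le_pow _ _ hR1
      omega
    have hKw : 0 < K ^ w := by
      have : 0 < K := by omega
      positivity
    have h6 : K ^ w * (8 * Ep.ncard) ≤ K ^ w * Pc := by
      calc K ^ w * (8 * Ep.ncard) ≤ K ^ w * (K * Ep.ncard) :=
            Nat.mul_le_mul_left _ (Nat.mul_le_mul_right _ hK8)
        _ = Ep.ncard * K ^ (w + 1) := by rw [pow_succ]; ring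
        _ ≤ 2 ^ w * ((4 ^ w * (R ^ 2) ^ w) * Pc) := h4
        _ ≤ 2 ^ w * ((4 ^ w * (R ^ 2) ^ w) * Pc) * 2 ^ w :=
            Nat.le_mul_of_pos_right _ (by positivity)
        _ ≤ _ := h5
    have h7 := Nat.le_of_mul_le_mul_left h6 hKw
    omega

end Pool.Agent.U141.MG
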