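import Pool.Agent.U141.MG.Low

/-!
# Stopping an algorithm after a given number of steps; the lower bound for the mean running time
-/

set_option autoImplicit false

open Finset

namespace Pool.Agent.U141.MG

open Pool.Agent.H560R2 Pool.Agent.TH655.ML

variable {ι : Type}

/-- stop after `t` steps and answer `false` -/
def cut : ℕ → Pool.Agent.TH655.ML.Tree ι → Pool.Agent.TH655.ML.Tree ι
  | _, .answer a => .answer a
  | 0, .op _ _ _ _ => .answer false
  | 0, .test _ _ _ _ => .answer false
  | t + 1, .op f x y s => .op f x y (cut t s)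
  | t + 1, .test x θ s s' => .test x θ (cut t s) (cut t s')

lemma cut_mono (T : Pool.Agent.TH655.ML.Tree ι) : ∀ t : ℕ, T.Mono → (cut t T).Mono := by
  induction T with
  | answer a =>
    intro t _
    cases t <;> trivial
  | op f x y s ih =>
    intro t h
    cases t with
    | zero => trivial
    | succ t => exact ⟨h.1, ih t h.2⟩
  | test x θ s s' ih ih' =>
    intro t h
    cases t with
    | zero => trivial
    | succ t => exact ⟨ih t h.1, ih' t h.2⟩

lemma cut_steps (b : ι → ℝ) (T : Pool.Agent.TH655.ML.Tree ι) :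
    ∀ (t : ℕ) (m : ℕ → ℝ), steps b (cut t T) m ≤ t := by
  induction T with
  | answer a =>
    intro t m
    cases t <;> simp [cut, steps]
  | op f x y s ih =>
    intro t m
    cases t with
    | zero => simp [cut, steps]
    | succ t =>
      simp only [cut, steps]
      exact Nat.succ_le_succ (ih t _)
  | test x θ s s' ih ih' =>
    intro t m
    cases t with
    | zero => simp [cut, steps]
    | succ t =>
      simp only [cut, steps]
      split_ifs
      · exact Nat.succ_le_succ (ih t _)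
      · exact Nat.succ_le_succ (ih' t _)

lemma cut_path (b : ι → ℝ) (T : Pool.Agent.TH655.ML.Tree ι) :
    ∀ (t : ℕ) (m : ℕ → ℝ), (path b (cut t T) m).length ≤ (path b T m).length := by
  induction T with
  | answer a =>
    intro t m
    cases t <;> simp [cut, path]
  | op f x y s ih =>
    intro t m
    cases t with
    | zero => simp [cut, path]
    | succ t =>
      simp only [cut, path]
      exact ih t _
  | test x θ s s' ih ih' =>
    intro t m
    cases t with
    | zero => simp [cut, path]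
    | succ t =>
      simp only [cut, path]
      split_ifs
      · exact Nat.succ_le_succ (ih t _)
      · exact Nat.succ_le_succ (ih' t _)

lemma cut_ans (b : ι → ℝ) (T : Pool.Agent.TH655.ML.Tree ι) :
    ∀ (t : ℕ) (m : ℕ → ℝ), steps b T m ≤ t → ans b (cut t T) m = ans b T m := by
  induction T with
  | answer a =>
    intro t m _
    cases t <;> rfl
  | op f x y s ih =>
    intro t m h
    cases t with
    | zero => simp [steps] at h
    | succ t =>
      simp only [cut, ans, steps] at h ⊢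
      exact ih t _ (Nat.le_of_succ_le_succ h)
  | test x θ s s' ih ih' =>
    intro t m h
    cases t with
    | zero => simp [steps] at h
    | succ t =>
      simp only [cut, ans, steps] at h ⊢
      split_ifs at h ⊢
      · exact ih t _ (Nat.le_of_succ_le_succ h)
      · exact ih' t _ (Nat.le_of_succ_le_succ h)

/-- few members of the family take a long time -/
lemma cut_count {R : Type} [Fintype R] (T : R → Pool.Agent.TH655.ML.Tree ι) (b : ι → ℝ) (d q : ℕ)
    (hqd : q ≤ 2 ^ d) (a : Bool)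
    (hsum : ∑ ρ, steps b (T ρ) 0 < 2 ^ d * Fintype.card R)
    (h : ((1 : ℝ) / 2 + 1 / q) * Fintype.card R ≤
      ((univ.filter (fun ρ => ans b (T ρ) 0 = a)).card : ℝ)) (hq : 1 ≤ q) :
    (2 * q + 2) * Fintype.card R ≤ 2 * (2 * q) *
      (univ.filter (fun ρ => ans b (cut (2 ^ (2 * d + 1) - 1) (T ρ)) 0 = a)).card := by
  classical
  set t := 2 ^ (2 * d + 1) - 1 with ht
  have ht1 : t + 1 = 2 ^ (2 * d + 1) := by
    have : 0 < 2 ^ (2 * d + 1) := by positivity
    omega
  set F := univ.filter (fun ρ => ans b (T ρ) 0 = a) with hF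
  set F' := univ.filter (fun ρ => ans b (cut t (T ρ)) 0 = a) with hF'
  set Bd := univ.filter (fun ρ => t < steps b (T ρ) 0) with hBd
  have h1 : F ⊆ F' ∪ Bd := by
    intro ρ hρ
    rw [hF, Finset.mem_filter] at hρ
    by_cases c : t < steps b (T ρ) 0
    · exact Finset.mem_union_right _ (Finset.mem_filter.2 ⟨mem_univ _, c⟩)
    · refine Finset.mem_union_left _ (Finset.mem_filter.2 ⟨mem_univ _, ?_⟩)
      rw [cut_ans b (T ρ) t 0 (not_lt.1 c)]
      exact hρ.2
  have h2 : F.card ≤ F'.card + Bd.card := (Finset.card_le_card h1).trans (Finset.card_union_le _ _)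
  have h3 : Bd.card * 2 ^ (2 * d + 1) ≤ ∑ ρ, steps b (T ρ) 0 := by
    calc Bd.card * 2 ^ (2 * d + 1) = ∑ ρ ∈ Bd, 2 ^ (2 * d + 1) := by simp
      _ ≤ ∑ ρ ∈ Bd, steps b (T ρ) 0 := Finset.sum_le_sum (fun ρ hρ => by
          have := (Finset.mem_filter.1 hρ).2
          omega)
      _ ≤ _ := Finset.sum_le_sum_of_subset (Finset.subset_univ _)
  have h4 : Bd.card * 2 ^ (d + 1) ≤ Fintype.card R := by
    have h5 : 2 ^ d * (Bd.card * 2 ^ (d + 1)) ≤ 2 ^ d * Fintype.card R := by
      calc 2 ^ d * (Bd.card * 2 ^ (d + 1)) = Bd.card * 2 ^ (2 * d + 1) := by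
            rw [show 2 * d + 1 = d + (d + 1) by ring, pow_add]
            ring
        _ ≤ _ := h3.trans hsum.le
    exact Nat.le_of_mul_le_mul_left h5 (by positivity)
  have h6 : (q + 2) * Fintype.card R ≤ 2 * q * F.card := by
    have hq' : (0 : ℝ) < q := by exact_mod_cast hq
    have h7 : ((q : ℝ) + 2) * Fintype.card R ≤ 2 * q * F.card := by
      have h8 := mul_le_mul_of_nonneg_left h (by positivity : (0 : ℝ) ≤ 2 * q)
      have e1 : 2 * (q : ℝ) * ((1 / 2 + 1 / q) * Fintype.card R) =
          ((q : ℝ) + 2) * Fintype.card R := by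
        field_simp
      rw [e1] at h8
      exact h8
    exact_mod_cast h7
  have h9 : q * Bd.card ≤ 2 ^ d * Bd.card := Nat.mul_le_mul_right _ hqd
  have h10 : 2 * (2 ^ d * Bd.card) ≤ Fintype.card R := by
    have : Bd.card * 2 ^ (d + 1) = 2 * (2 ^ d * Bd.card) := by
      rw [pow_succ]
      ring
    omega
  have h11 : q * F.card ≤ q * F'.card + q * Bd.card := by
    rw [← mul_add]
    exact Nat.mul_le_mul_left _ h2
  have e2 : (2 * q + 2) * Fintype.card R = 2 * (q * Fintype.card R) + 2 * Fintype.card R := by ring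
  have e3 : (q + 2) * Fintype.card R = q * Fintype.card R + 2 * Fintype.card R := by ring
  have e4 : 2 * (2 * q) * F'.card = 4 * (q * F'.card) := by ring
  have e5 : 2 * q * F.card = 2 * (q * F.card) := by ring
  rw [e2, e4]
  rw [e3, e5] at h6
  omega

open Matrix in
/-- **Randomised monotone real algorithms with few comparisons.** -/
theorem main (d k q r : ℕ) (hd : 1 ≤ d) (hk : 1 ≤ k) (hq : 1 ≤ q) (hqd : q ≤ 2 ^ d) :
    ∃ (m N : ℕ) (A : Matrix (Fin m) (Fin N) ℝ),
      N = q * 2 ^ (r + 2) * (2 ^ 147 * (k * d) ^ 9) ^ 2 ∧ m ≤ 6 * N ∧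
      (∀ i j, A i j = -1 ∨ A i j = 0 ∨ A i j = 1) ∧
      ∀ (R : Type) [Fintype R] [Nonempty R] (T : R → Pool.Agent.TH655.ML.Tree (Fin m)),
        (∀ ρ, (T ρ).Mono) →
        (∀ b : Fin m → ℝ, Small b → (∃ x : Fin N → ℝ, b ≤ A *ᵥ x) →
          ((1 : ℝ) / 2 + 1 / q) * Fintype.card R ≤
            ((univ.filter (fun ρ => ans b (T ρ) 0 = true)).card : ℝ)) →
        (∀ b : Fin m → ℝ, Small b → Far k (2 ^ 147 * (k * d) ^ 9) A b →
          ((1 : ℝ) / 2 + 1 / q) * Fintype.card R ≤
            ((univ.filter (fun ρ => ans b (T ρ) 0 = false)).card : ℝ)) →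
        (∀ ρ, ∀ b : Fin m → ℝ, Small b → (path b (T ρ) 0).length ≤ r) →
        ∃ b : Fin m → ℝ, Small b ∧ 2 ^ d * Fintype.card R ≤ ∑ ρ, steps b (T ρ) 0 := by
  classical
  set D := 2 * k * (2 * (2 * d)) with hD
  have hD1 : 1 ≤ D := by
    rw [hD]
    exact Nat.one_le_iff_ne_zero.2 (by positivity)
  obtain ⟨lam, h1, h2⟩ := exists_size (4 * (k * d)) (Nat.one_le_iff_ne_zero.2 (by positivity))
  obtain ⟨lam', g1, g2⟩ := exists_size D hD1
  have hn0 : 2 ^ 120 * D ^ 9 = 2 ^ 147 * (k * d) ^ 9 := by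
    rw [hD]
    ring
  rw [hn0] at g1 g2
  set n := 2 ^ 147 * (k * d) ^ 9 with hn
  set M := 2 * (2 * q) * 2 ^ r with hM
  have hn1 : 1 ≤ n := by rw [hn]; exact Nat.one_le_iff_ne_zero.2 (by positivity)
  let e : Fin (Fintype.card (Rw M n)) ≃ Rw M n := (Fintype.equivFin (Rw M n)).symm
  have hMN : q * 2 ^ (r + 2) * n ^ 2 = M * n ^ 2 := by
    rw [hM, pow_add]
    ring
  have hc : Fintype.card (Fin M × (Fin n × Fin n)) = q * 2 ^ (r + 2) * n ^ 2 := by
    rw [hMN]
    simp only [Fintype.card_prod, Fintype.card_fin]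
    ring
  let c : Fin (q * 2 ^ (r + 2) * n ^ 2) ≃ (Fin M × (Fin n × Fin n)) :=
    (Fintype.equivFinOfCardEq hc).symm
  refine ⟨Fintype.card (Rw M n), q * 2 ^ (r + 2) * n ^ 2, fun i j => Mtx M n (e i) (c j), rfl, ?_,
    fun i j => Mtx_values M n _ _, ?_⟩
  · rw [card_Rw, hMN]
    have : M * n ≤ M * n ^ 2 := Nat.mul_le_mul_left _ (by nlinarith)
    have e1 : M * (n * n) = M * n ^ 2 := by ring
    rw [e1]
    omega
  · intro R _ _ T hT hyes hno hr
    by_contra hcon
    push Not at hcon
    set t := 2 ^ (2 * d + 1) - 1 with ht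
    have hsmall : ∀ y : Fin M → Set (Fin n × Fin n), Small (inp e y) := inp_small e
    have hbig : 2 ^ 63 * k ^ 4 * (lam' + 1) ^ 8 * (2 * d + 1) ^ 8 ≤ n := by
      refine le_trans ?_ g2
      have s1 : (2 * d + 1) ^ 8 ≤ (2 * (2 * d)) ^ 8 := Nat.pow_le_pow_left (by omega) 8
      have s2 : k ^ 4 ≤ k ^ 8 := Nat.pow_le_pow_right hk (by norm_num)
      have s3 : 2 ^ 59 * (lam' + 1) ^ 8 * D ^ 8 =
          2 ^ 67 * k ^ 8 * (lam' + 1) ^ 8 * (2 * (2 * d)) ^ 8 := by
        rw [hD]
        ring
      rw [s3]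
      have s4 : 2 ^ 63 * k ^ 4 * (lam' + 1) ^ 8 ≤ 2 ^ 67 * k ^ 8 * (lam' + 1) ^ 8 :=
        Nat.mul_le_mul_right _ (Nat.mul_le_mul (by norm_num) s2)
      exact Nat.mul_le_mul s4 s1
    have hq2 : 2 * q ≤ 2 ^ (2 * d + 1) := by
      have : 2 ^ d ≤ 2 ^ (2 * d) := Nat.pow_le_pow_right (by norm_num) (by omega)
      rw [pow_succ]
      omega
    obtain ⟨ρ, b, hb, hst⟩ := low (2 * d + 1) lam' k (2 * q) r n M (by omega) hk (by omega) hq2 g1
      hbig hM e (fun ρ => cut t (T ρ)) (fun ρ => cut_mono _ _ (hT ρ))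
      (fun ρ b hb => (cut_path b (T ρ) t 0).trans (hr ρ b hb))
      (fun y hy => by
        refine cut_count T (inp e y) d q hqd true (hcon _ (hsmall y)) ?_ hq
        refine hyes _ (hsmall y) ?_
        have hf := (feas_iff (enc y)).2 (by
          intro J
          rw [enc_eq]
          exact hy J)
        obtain ⟨x, hx⟩ := hf
        refine ⟨fun j => x (c j), fun i => ?_⟩
        refine (hx (e i)).trans (le_of_eq ?_)
        show _ = ∑ j, Mtx M n (e i) (c j) * x (c j)
        rw [← Equiv.sum_comp c])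
      (fun y hy => by
        refine cut_count T (inp e y) d q hqd false (hcon _ (hsmall y)) ?_ hq
        refine hno _ (hsmall y) ?_
        obtain ⟨J, W, hW, hWy⟩ := hy
        have hfar := far_blocks k hk (enc y) J W hW (fun p hp => by
          show decide (p ∈ y J) = true
          exact decide_eq_true (hWy p hp))
        have := Far.reindex hfar e c
        have hcast : ((n : ℕ) : ℝ) = 2 ^ 147 * ((k : ℝ) * d) ^ 9 := by
          rw [hn]
          push_cast
          ring
        rw [hcast] at this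
        exact this)
    have := cut_steps b (T ρ) t 0
    have h0 : 0 < 2 ^ (2 * d + 1) := by positivity
    omega

end Pool.Agent.U141.MG
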