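import Pool.Agent.U141.MG.Avg

/-!
# Robustly infeasible systems, and the dual form of the average case bound
-/

set_option autoImplicit false

open Finset

namespace Pool.Agent.U141.MG

open Pool.Agent.H560R2

variable {n : ℕ}

theorem match_avg_dual (w lam k : ℕ) (hw : 1 ≤ w) (hk : 1 ≤ k) (hn : n < 2 ^ lam)
    (hbig : 2 ^ 63 * k ^ 4 * (lam + 1) ^ 8 * w ^ 8 ≤ n) :
    ∃ (Ω : Type) (_ : Fintype Ω) (Wc : Ω → Finset (Fin n ⊕ Fin n)), 0 < Fintype.card Ω ∧
      {ω : Ω | n ≤ 2 * k * (Wc ω).card}.ncard * 4 ≤ Fintype.card Ω ∧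
      ∀ (B0 : Set (Set (Fin n × Fin n) → ℝ)),
        (∀ b ∈ B0, ∃ T : Finset (Fin n × Fin n), T.card ≤ 1 ∧ LeafOnR T b) →
        ∀ {L : List (Set (Fin n × Fin n) → ℝ)}, RProg B0 L → L.length + 1 ≤ 2 ^ w →
        ∀ (g : Set (Fin n × Fin n) → ℝ), (g ∈ B0 ∨ g ∈ L) →
          {ω : Ω | 1 ≤ g {e | Sum.inl e.1 ∉ Wc ω ∧ Sum.inr e.2 ∉ Wc ω}}.ncard * 2 ^ (w + 3) ≤
            Fintype.card Ω ∨
          Fintype.card (Equiv.Perm (Fin n)) ≤
            {σ : Equiv.Perm (Fin n) | 1 ≤ g {e | σ e.1 ≠ e.2}}.ncard * 2 := by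
  classical
  obtain ⟨Ω, hΩ, Wc, h1, h2, h3⟩ := match_avg w lam k hw hk hn hbig
  refine ⟨Ω, hΩ, Wc, h1, h2, fun B0 hleaf L hL hlen g hg => ?_⟩
  set g' : Set (Fin n × Fin n) → ℝ := fun X => if 1 ≤ g X then 1 else 0 with hg'
  have hL1 : RProg B0 (g' :: L) :=
    RProg.gate (B := B0) 1 (by norm_num) (fun u : Fin 1 → ℝ => if 1 ≤ u 0 then (1 : ℝ) else 0)
      (fun u v huv => by
        have h := huv 0
        show (if 1 ≤ u 0 then (1 : ℝ) else 0) ≤ if 1 ≤ v 0 then (1 : ℝ) else 0
        split_ifs with c1 c2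
        · exact le_rfl
        · exact absurd (c1.trans h) c2
        · norm_num
        · exact le_rfl)
      (fun _ : Fin 1 => g) hL (fun _ => hg)
  have key := h3 {g | ∃ b ∈ B0, g = fun Z => - b Zᶜ} (by
    rintro _ ⟨b, hb, rfl⟩
    obtain ⟨T, hT, h⟩ := hleaf b hb
    exact ⟨T, hT, h.dual⟩) hL1.dual (by rw [List.length_map]; exact hlen)
    (fun Z => - g' Zᶜ) (Or.inr (List.mem_map.mpr ⟨g', List.mem_cons_self, rfl⟩)) 0
  have hneg : ∀ Z : Set (Fin n × Fin n), ((0 : ℝ) ≤ - g' Zᶜ) ↔ ¬ 1 ≤ g Zᶜ := by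
    intro Z
    simp only [hg']
    split_ifs with c
    · simp [c]
    · simp [c]
  rcases key with h | h
  · left
    refine le_trans (Nat.mul_le_mul_right _ (Set.ncard_le_ncard ?_ (Set.toFinite _))) h
    intro ω hω
    show ¬ (0 : ℝ) ≤ _
    rw [hneg, not_not]
    have e : ({e : Fin n × Fin n | Sum.inl e.1 ∈ Wc ω ∨ Sum.inr e.2 ∈ Wc ω}ᶜ : Set _) =
        {e | Sum.inl e.1 ∉ Wc ω ∧ Sum.inr e.2 ∉ Wc ω} := by
      ext e
      simp
    rw [e]
    exact hω
  · right
    have hc : ∀ σ : Equiv.Perm (Fin n), ({e : Fin n × Fin n | σ e.1 = e.2}ᶜ : Set _) =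
        {e | σ e.1 ≠ e.2} := by
      intro σ
      ext e
      simp
    have hsplit : {σ : Equiv.Perm (Fin n) | (0 : ℝ) ≤ - g' {e | σ e.1 = e.2}ᶜ} =
        {σ : Equiv.Perm (Fin n) | 1 ≤ g {e | σ e.1 ≠ e.2}}ᶜ := by
      ext σ
      show (0 : ℝ) ≤ _ ↔ ¬ _
      rw [hneg, hc]
      rfl
    have h5 : {σ : Equiv.Perm (Fin n) | 1 ≤ g {e | σ e.1 ≠ e.2}}ᶜ.ncard * 2 ≤
        Fintype.card (Equiv.Perm (Fin n)) := by
      rw [← hsplit]
      exact h
    have h6 := Set.ncard_add_ncard_compl {σ : Equiv.Perm (Fin n) | 1 ≤ g {e | σ e.1 ≠ e.2}}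
      (Set.toFinite _) (Set.toFinite _)
    rw [Nat.card_eq_fintype_card] at h6
    omega

/-- `A x ≥ b` is robustly infeasible: it is not solvable even if its demands (the positive entries
of `b`) are divided by `k`, and each `x` violates it by at least `(1 - 1 / k) v` in total. -/
def Far {ι κ : Type} [Fintype ι] [Fintype κ] (k : ℕ) (v : ℝ) (A : ι → κ → ℝ) (b : ι → ℝ) : Prop :=
  (¬ ∃ x : κ → ℝ, ∀ i, (if 0 < b i then b i / k else b i) ≤ ∑ j, A i j * x j) ∧
  ∀ x : κ → ℝ, (1 - 1 / k) * v ≤ ∑ i, max (b i - ∑ j, A i j * x j) 0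

lemma sum_ge {M : ℕ} {α : Type} [Fintype α] (F : Fin M × α → ℝ) (hF : ∀ p, 0 ≤ F p) (J : Fin M)
    (S : Finset α) (G : α → ℝ) (hG : ∀ a ∈ S, G a ≤ F (J, a)) : ∑ a ∈ S, G a ≤ ∑ p, F p := by
  classical
  calc ∑ a ∈ S, G a ≤ ∑ a ∈ S, F (J, a) := Finset.sum_le_sum hG
    _ = ∑ p ∈ S.image (fun a => (J, a)), F p := by
        rw [Finset.sum_image]
        intro a _ b _ h
        exact (Prod.ext_iff.1 h).2
    _ ≤ ∑ p, F p := Finset.sum_le_sum_of_subset_of_nonneg (Finset.subset_univ _)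
        (fun p _ _ => hF p)

section

variable {M : ℕ} (y : Fin M × (Fin n × Fin n) → ℝ)

lemma row1 (q : Fin M × (Fin n × Fin n)) : ∑ j, Mtx M n (Sum.inl q) j * y j = y q := by
  classical
  simp [Mtx]

lemma row2 (q : Fin M × (Fin n × Fin n)) :
    ∑ j, Mtx M n (Sum.inr (Sum.inl q)) j * y j = - y q := by
  classical
  simp [Mtx]

lemma row3l (J : Fin M) (u : Fin n) :
    ∑ j, Mtx M n (Sum.inr (Sum.inr (Sum.inl (J, Sum.inl u)))) j * y j = ∑ v, y (J, (u, v)) := by
  have := sum_left y J u 1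
  rw [one_mul] at this
  exact this

lemma row3r (J : Fin M) (v : Fin n) :
    ∑ j, Mtx M n (Sum.inr (Sum.inr (Sum.inl (J, Sum.inr v)))) j * y j = ∑ u, y (J, (u, v)) := by
  have := sum_right y J v 1
  rw [one_mul] at this
  exact this

lemma row4l (J : Fin M) (u : Fin n) :
    ∑ j, Mtx M n (Sum.inr (Sum.inr (Sum.inr (J, Sum.inl u)))) j * y j = - ∑ v, y (J, (u, v)) := by
  have := sum_left y J u (-1)
  rw [neg_one_mul] at this
  exact this

lemma row4r (J : Fin M) (v : Fin n) :
    ∑ j, Mtx M n (Sum.inr (Sum.inr (Sum.inr (J, Sum.inr v)))) j * y j = - ∑ u, y (J, (u, v)) := by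
  have := sum_right y J v (-1)
  rw [neg_one_mul] at this
  exact this

end

lemma card_split (W : Finset (Fin n ⊕ Fin n)) :
    (univ.filter (fun u : Fin n => Sum.inl u ∈ W)).card +
      (univ.filter (fun v : Fin n => Sum.inr v ∈ W)).card = W.card := by
  classical
  have h : W = (univ.filter (fun u : Fin n => Sum.inl u ∈ W)).map Function.Embedding.inl ∪
      (univ.filter (fun v : Fin n => Sum.inr v ∈ W)).map Function.Embedding.inr := by
    ext z
    rcases z with u | v
    · simp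
    · simp
  conv_rhs => rw [h]
  rw [Finset.card_union_of_disjoint, Finset.card_map, Finset.card_map]
  rw [Finset.disjoint_left]
  intro z hz hz'
  simp only [Finset.mem_map, Finset.mem_filter, Finset.mem_univ, true_and] at hz hz'
  obtain ⟨u, _, rfl⟩ := hz
  obtain ⟨v, _, h⟩ := hz'
  exact absurd h (by simp)

/-- the systems of the blocks with a small cover are robustly infeasible -/
theorem far_blocks {M : ℕ} (k : ℕ) (hk : 1 ≤ k) (x : Fin M × (Fin n × Fin n) → Bool) (J : Fin M)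
    (W : Finset (Fin n ⊕ Fin n)) (hW : 2 * k * W.card < n)
    (hx : ∀ e : Fin n × Fin n, Sum.inl e.1 ∉ W ∧ Sum.inr e.2 ∉ W → x (J, e) = true) :
    Far k n (Mtx M n) (rhs x) := by
  classical
  set WL := univ.filter (fun u : Fin n => Sum.inl u ∈ W) with hWL
  set WR := univ.filter (fun v : Fin n => Sum.inr v ∈ W) with hWR
  set UL := univ.filter (fun u : Fin n => Sum.inl u ∉ W) with hUL
  have hcs : WL.card + WR.card = W.card := card_split W
  have hcu : WL.card + UL.card = n := by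
    have := Finset.card_filter_add_card_filter_not (s := (univ : Finset (Fin n)))
      (fun u : Fin n => Sum.inl u ∈ W)
    rw [Finset.card_univ, Fintype.card_fin] at this
    exact this
  have hk' : (0 : ℝ) < k := by exact_mod_cast hk
  have hbit : ∀ e : Fin n × Fin n, Sum.inl e.1 ∉ W ∧ Sum.inr e.2 ∉ W → bit x (J, e) = 1 := by
    intro e he
    unfold bit
    rw [if_pos (hx e he)]
  constructor
  · rintro ⟨y, hy⟩
    have h1 : ∀ e, 0 ≤ y (J, e) := by
      intro e
      have := hy (Sum.inl (J, e))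
      rw [row1] at this
      have e1 : rhs x (Sum.inl (J, e)) = 0 := rfl
      rw [e1, if_neg (lt_irrefl _)] at this
      exact this
    have h2 : ∀ e : Fin n × Fin n, Sum.inl e.1 ∉ W ∧ Sum.inr e.2 ∉ W → y (J, e) ≤ 0 := by
      intro e he
      have := hy (Sum.inr (Sum.inl (J, e)))
      rw [row2] at this
      have e1 : rhs x (Sum.inr (Sum.inl (J, e))) = 0 := by
        show bit x (J, e) - 1 = 0
        rw [hbit e he, sub_self]
      rw [e1, if_neg (lt_irrefl _)] at this
      linarith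
    have h3 : ∀ u, (1 : ℝ) / k ≤ ∑ v, y (J, (u, v)) := by
      intro u
      have := hy (Sum.inr (Sum.inr (Sum.inl (J, Sum.inl u))))
      rw [row3l] at this
      have e1 : rhs x (Sum.inr (Sum.inr (Sum.inl (J, Sum.inl u)))) = 1 := rfl
      rw [e1, if_pos one_pos] at this
      exact this
    have h4 : ∀ v, ∑ u, y (J, (u, v)) ≤ 1 := by
      intro v
      have := hy (Sum.inr (Sum.inr (Sum.inr (J, Sum.inr v))))
      rw [row4r] at this
      have e1 : rhs x (Sum.inr (Sum.inr (Sum.inr (J, Sum.inr v)))) = -1 := rfl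
      rw [e1, if_neg (by norm_num)] at this
      linarith
    have h5 : (UL.card : ℝ) * (1 / k) ≤ ∑ u ∈ UL, ∑ v, y (J, (u, v)) := by
      rw [← nsmul_eq_mul]
      exact Finset.card_nsmul_le_sum _ _ _ (fun u _ => h3 u)
    have h6 : ∑ u ∈ UL, ∑ v, y (J, (u, v)) ≤ ∑ u ∈ UL, ∑ v ∈ WR, y (J, (u, v)) := by
      apply Finset.sum_le_sum
      intro u hu
      have hu' : Sum.inl u ∉ W := (Finset.mem_filter.1 hu).2
      rw [hWR, Finset.sum_filter]
      apply Finset.sum_le_sum
      intro v _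
      split_ifs with hv
      · exact le_rfl
      · exact h2 (u, v) ⟨hu', hv⟩
    have h7 : ∑ u ∈ UL, ∑ v ∈ WR, y (J, (u, v)) ≤ WR.card := by
      rw [Finset.sum_comm]
      calc ∑ v ∈ WR, ∑ u ∈ UL, y (J, (u, v)) ≤ ∑ v ∈ WR, ∑ u, y (J, (u, v)) := by
            apply Finset.sum_le_sum
            intro v _
            exact Finset.sum_le_sum_of_subset_of_nonneg (Finset.subset_univ _)
              (fun u _ _ => h1 (u, v))
        _ ≤ ∑ v ∈ WR, 1 := Finset.sum_le_sum (fun v _ => h4 v)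
        _ = _ := by simp
    have h8 : (UL.card : ℝ) * (1 / k) ≤ WR.card := h5.trans (h6.trans h7)
    have h9 : (UL.card : ℝ) ≤ k * WR.card := by
      have := mul_le_mul_of_nonneg_left h8 hk'.le
      have e1 : (k : ℝ) * ((UL.card : ℝ) * (1 / k)) = UL.card := by
        field_simp
      linarith
    have h10 : UL.card ≤ k * WR.card := by exact_mod_cast h9
    have h11 : 2 * k * WL.card + 2 * k * WR.card < n := by
      rw [← mul_add, hcs]
      exact hW
    have h12 : WL.card ≤ k * WL.card := Nat.le_mul_of_pos_left _ hk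
    nlinarith
  · intro y
    set V : Rw M n → ℝ := fun i => max (rhs x i - ∑ j, Mtx M n i j * y j) 0 with hV
    have hV0 : ∀ i, 0 ≤ V i := fun i => le_max_right _ _
    have hVle : ∀ i, rhs x i - ∑ j, Mtx M n i j * y j ≤ V i := fun i => le_max_left _ _
    have s1 := sum_ge (fun q => V (Sum.inl q)) (fun q => hV0 _) J
      (univ.filter (fun e : Fin n × Fin n => Sum.inl e.1 ∈ W ∧ Sum.inr e.2 ∈ W))
      (fun e => - y (J, e)) (fun e _ => by
        have := hVle (Sum.inl (J, e))
        rw [row1] at this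
        have e1 : rhs x (Sum.inl (J, e)) = 0 := rfl
        rw [e1, zero_sub] at this
        exact this)
    have s2 := sum_ge (fun q => V (Sum.inr (Sum.inl q))) (fun q => hV0 _) J
      (univ.filter (fun e : Fin n × Fin n => Sum.inl e.1 ∉ W ∧ Sum.inr e.2 ∉ W))
      (fun e => y (J, e)) (fun e he => by
        have := hVle (Sum.inr (Sum.inl (J, e)))
        rw [row2] at this
        have e1 : rhs x (Sum.inr (Sum.inl (J, e))) = 0 := by
          show bit x (J, e) - 1 = 0
          rw [hbit e (Finset.mem_filter.1 he).2, sub_self]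
        rw [e1, zero_sub, neg_neg] at this
        exact this)
    have s3 := sum_ge (fun q => V (Sum.inr (Sum.inr (Sum.inl q)))) (fun q => hV0 _) J
      (UL.map Function.Embedding.inl)
      (Sum.elim (fun u => 1 - ∑ v, y (J, (u, v))) (fun _ => 0)) (fun z hz => by
        obtain ⟨u, _, rfl⟩ := Finset.mem_map.1 hz
        have := hVle (Sum.inr (Sum.inr (Sum.inl (J, Sum.inl u))))
        rw [row3l] at this
        exact this)
    have s4 := sum_ge (fun q => V (Sum.inr (Sum.inr (Sum.inr q)))) (fun q => hV0 _) J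
      (WR.map Function.Embedding.inr)
      (Sum.elim (fun _ => 0) (fun v => -1 + ∑ u, y (J, (u, v)))) (fun z hz => by
        obtain ⟨v, _, rfl⟩ := Finset.mem_map.1 hz
        have := hVle (Sum.inr (Sum.inr (Sum.inr (J, Sum.inr v))))
        rw [row4r] at this
        have e1 : rhs x (Sum.inr (Sum.inr (Sum.inr (J, Sum.inr v)))) = -1 := rfl
        rw [e1, sub_neg_eq_add] at this
        exact this)
    rw [Finset.sum_map] at s3 s4
    simp only [Function.Embedding.inl_apply, Function.Embedding.inr_apply, Sum.elim_inl,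
      Sum.elim_inr] at s3 s4
    rw [Finset.sum_sub_distrib, Finset.sum_const, nsmul_eq_mul, mul_one] at s3
    rw [Finset.sum_add_distrib, Finset.sum_const, nsmul_eq_mul, mul_neg, mul_one] at s4
    rw [Finset.sum_neg_distrib] at s1
    have hz : - ∑ e ∈ univ.filter (fun e : Fin n × Fin n => Sum.inl e.1 ∈ W ∧ Sum.inr e.2 ∈ W),
          y (J, e) +
        ∑ e ∈ univ.filter (fun e : Fin n × Fin n => Sum.inl e.1 ∉ W ∧ Sum.inr e.2 ∉ W), y (J, e) -
        ∑ u ∈ UL, ∑ v, y (J, (u, v)) + ∑ v ∈ WR, ∑ u, y (J, (u, v)) = 0 := by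
      have e1 : ∑ u ∈ UL, ∑ v, y (J, (u, v)) =
          ∑ u : Fin n, ∑ v : Fin n, if Sum.inl u ∉ W then y (J, (u, v)) else 0 := by
        rw [hUL, Finset.sum_filter]
        apply Finset.sum_congr rfl
        intro u _
        split_ifs <;> simp
      have e2 : ∑ v ∈ WR, ∑ u, y (J, (u, v)) =
          ∑ u : Fin n, ∑ v : Fin n, if Sum.inr v ∈ W then y (J, (u, v)) else 0 := by
        rw [Finset.sum_comm (s := univ) (t := univ), hWR, Finset.sum_filter]
        apply Finset.sum_congr rfl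
        intro v _
        split_ifs <;> simp
      rw [e1, e2, Finset.sum_filter, Finset.sum_filter, Fintype.sum_prod_type,
        Fintype.sum_prod_type, ← Finset.sum_neg_distrib]
      simp only [← Finset.sum_neg_distrib, ← Finset.sum_add_distrib, ← Finset.sum_sub_distrib]
      apply Finset.sum_eq_zero
      intro u _
      apply Finset.sum_eq_zero
      intro v _
      by_cases c1 : (Sum.inl u : Fin n ⊕ Fin n) ∈ W <;>
        by_cases c2 : (Sum.inr v : Fin n ⊕ Fin n) ∈ W <;> simp [c1, c2]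
    have htot : ∑ i, V i = ∑ q, V (Sum.inl q) + (∑ q, V (Sum.inr (Sum.inl q)) +
        (∑ q, V (Sum.inr (Sum.inr (Sum.inl q))) + ∑ q, V (Sum.inr (Sum.inr (Sum.inr q))))) := by
      rw [Fintype.sum_sum_type, Fintype.sum_sum_type, Fintype.sum_sum_type]
    have hlow : (UL.card : ℝ) - WR.card ≤ ∑ i, V i := by
      rw [htot]
      linarith
    refine le_trans ?_ hlow
    have hc1 : (UL.card : ℝ) = n - WL.card := by
      have : ((WL.card : ℝ) + UL.card) = n := by exact_mod_cast hcu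
      linarith
    have hc2 : ((WL.card : ℝ) + WR.card) = W.card := by exact_mod_cast hcs
    have hW' : (2 : ℝ) * k * W.card < n := by exact_mod_cast hW
    have hW'' : (W.card : ℝ) ≤ n / k := by
      rw [le_div_iff₀ hk']
      have : (0 : ℝ) ≤ W.card * k := by positivity
      nlinarith
    have e1 : (1 - 1 / (k : ℝ)) * n = n - n / k := by ring
    rw [e1, hc1]
    linarith

end Pool.Agent.U141.MG
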