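import Pool.Agent.U141.MG.Gap
import Pool.Agent.TH655.ML.Low

/-!
# Randomised monotone real algorithms with few comparisons: the chain argument on average
-/

set_option autoImplicit false

open Finset

namespace Pool.Agent.U141.MG

open Pool.Agent.H560R2 Pool.Agent.TH655.ML

section

variable {ι : Type} {n M : ℕ} (e : ι → Rw M n)

/-- the right-hand side for the blocks `y` -/
noncomputable def inp (y : Fin M → Set (Fin n × Fin n)) (i : ι) : ℝ := rhs (enc y) (e i)

/-- the blocks along the chain -/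
def yv (s : Fin M → Equiv.Perm (Fin n)) (i : ℕ) (j : Fin M) : Set (Fin n × Fin n) :=
  {p | (j : ℕ) < i ∧ s j p.1 ≠ p.2}

lemma inp_small (y : Fin M → Set (Fin n × Fin n)) : Small (inp e y) :=
  fun i => rhs_values (enc y) (e i)

lemma inp_mono {y y' : Fin M → Set (Fin n × Fin n)} (h : ∀ j, y j ⊆ y' j) :
    inp e y ≤ inp e y' := fun i => rhs_le (enc_le h) (e i)

lemma yv_BF (s : Fin M → Equiv.Perm (Fin n)) (i : ℕ) (j : Fin M) : BF n (yv s i j) :=
  BF_perm (s j) _ (fun _ he => he.2)

lemma yv_step (s : Fin M → Equiv.Perm (Fin n)) (i : Fin M) :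
    Function.update (yv s i) i {p | s i p.1 ≠ p.2} = yv s (i + 1) := by
  funext j
  by_cases hj : j = i
  · subst hj
    rw [Function.update_self]
    ext p
    simp [yv]
  · rw [Function.update_of_ne hj]
    ext p
    have : (j : ℕ) ≠ i := fun h => hj (Fin.ext h)
    simp only [yv, Set.mem_setOf_eq]
    constructor
    · rintro ⟨h1, h2⟩
      exact ⟨by omega, h2⟩
    · rintro ⟨h1, h2⟩
      exact ⟨by omega, h2⟩

lemma yv_update (s : Fin M → Equiv.Perm (Fin n)) (i : Fin M) (σ : Equiv.Perm (Fin n)) :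
    yv (Function.update s i σ) i = yv s i := by
  funext j
  ext p
  simp only [yv, Set.mem_setOf_eq]
  by_cases hj : j = i
  · subst hj
    simp
  · rw [Function.update_of_ne hj]

lemma yv_self (s : Fin M → Equiv.Perm (Fin n)) (i : Fin M) : yv s i i = ∅ := by
  ext p
  simp [yv]

lemma yv_le (s : Fin M → Equiv.Perm (Fin n)) (i : ℕ) (j : Fin M) : yv s i j ⊆ yv s (i + 1) j := by
  rintro p ⟨h1, h2⟩
  exact ⟨by omega, h2⟩

/-- the program which tells whether another path is taken -/
theorem prog (T : Pool.Agent.TH655.ML.Tree ι) (hT : T.Mono) (y : Fin M → Set (Fin n × Fin n)) (J : Fin M)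
    (hyJ : y J = ∅) :
    ∃ (L : List (Set (Fin n × Fin n) → ℝ)) (G : Set (Fin n × Fin n) → ℝ),
      RProg {h | ∃ S : Finset (Fin n × Fin n), S.card ≤ 1 ∧ LeafOnR S h} L ∧
      (G ∈ {h | ∃ S : Finset (Fin n × Fin n), S.card ≤ 1 ∧ LeafOnR S h} ∨ G ∈ L) ∧
      L.length ≤ steps (inp e y) T 0 ∧
      ∀ X, 1 ≤ G X ↔ path (inp e (Function.update y J X)) T 0 ≠ path (inp e y) T 0 := by
  classical
  have hup : Function.update y J ∅ = y := by
    rw [← hyJ]; exact Function.update_eq_self J y
  set B : Set (Set (Fin n × Fin n) → ℝ) :=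
    {h | ∃ S : Finset (Fin n × Fin n), S.card ≤ 1 ∧ LeafOnR S h} with hB
  have hconst : ∀ c : ℝ, (fun _ => c) ∈ B := fun c => ⟨∅, by simp, fun x x' _ => le_rfl⟩
  obtain ⟨L, G, hL, hG, hlen, hGX⟩ := program (B := B) (∅ : Set (Fin n × Fin n))
    (fun X => inp e (Function.update y J X)) (by
      intro i
      simp only [inp]
      rcases e i with q | q | q | q
      · exact hconst 0
      · refine ⟨{q.2}, by simp, fun x x' h => ?_⟩
        show bit (enc (Function.update y J x)) q - 1 ≤ bit (enc (Function.update y J x')) q - 1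
        have key : bit (enc (Function.update y J x)) q ≤
            bit (enc (Function.update y J x')) q := by
          unfold bit
          by_cases h1 : enc (Function.update y J x) q = true
          · have h2 : enc (Function.update y J x') q = true := by
              simp only [enc, decide_eq_true_eq] at h1 ⊢
              by_cases hp : q.1 = J
              · rw [hp, Function.update_self] at h1 ⊢
                exact h q.2 (by simp) h1
              · rw [Function.update_of_ne hp] at h1 ⊢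
                exact h1
            rw [if_pos h1, if_pos h2]
          · rw [if_neg h1]
            split_ifs <;> norm_num
        linarith
      · exact hconst 1
      · exact hconst (-1)) (by
      intro X
      apply inp_mono
      intro j
      by_cases hj : j = J
      · subst hj
        rw [Function.update_self, Function.update_self]
        exact Set.empty_subset _
      · rw [Function.update_of_ne hj, Function.update_of_ne hj]) T hT [] (fun _ => 0)
    (fun _ => 0) RProg.nil (fun k => Or.inl (hconst 0)) (fun X => le_rfl)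
    (Or.inl (hconst 0))
  simp only [hup] at hlen hGX
  refine ⟨L, G, hL, hG, ?_, fun X => ?_⟩
  · simpa using hlen
  · have h10 : ¬ (1 : ℝ) ≤ 0 := by norm_num
    rw [hGX X]
    simp only [h10, false_or]

open Classical in
/-- the path changes rarely along a chain -/
theorem change_sum (T : Pool.Agent.TH655.ML.Tree ι) (hT : T.Mono) (r : ℕ)
    (hr : ∀ b : ι → ℝ, Small b → (path b T 0).length ≤ r) (s : Fin M → Equiv.Perm (Fin n)) :
    ∑ i : Fin M, (if path (inp e (yv s (i + 1))) T 0 ≠ path (inp e (yv s i)) T 0 then 1 else 0) ≤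
      2 ^ r := by
  have h : ∀ i : ℕ, ∑ l ∈ Finset.range i,
      (if path (inp e (yv s (l + 1))) T 0 ≠ path (inp e (yv s l)) T 0 then 1 else 0) ≤
      rank r (path (inp e (yv s i)) T 0) := by
    intro i
    induction i with
    | zero => simp
    | succ i ih =>
      rw [Finset.sum_range_succ]
      rcases rank_mono (inp_mono e (yv_le s i)) T hT r (le_refl (0 : ℕ → ℝ))
        (hr _ (inp_small e _)) (hr _ (inp_small e _)) with h5 | h5
      · rw [if_neg (not_not.mpr h5.symm), ← h5]
        omega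
      · split_ifs <;> omega
  have h1 := h M
  have h2 := rank_lt r (path (inp e (yv s M)) T 0)
  rw [Fin.sum_univ_eq_sum_range (fun l =>
    if path (inp e (yv s (l + 1))) T 0 ≠ path (inp e (yv s l)) T 0 then 1 else 0) M]
  omega

end

/-- averaging over one coordinate -/
lemma sum_update {κ P : Type} [Fintype κ] [DecidableEq κ] [Fintype P] (i : κ)
    (F : (κ → P) → ℕ) :
    ∑ s : κ → P, ∑ σ : P, F (Function.update s i σ) = Fintype.card P * ∑ s, F s := by
  classical
  let f : (κ → P) × P → (κ → P) × P := fun p => (Function.update p.1 i p.2, p.1 i)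
  have hf : Function.Involutive f := by
    rintro ⟨s, σ⟩
    simp [f]
  rw [← Fintype.sum_prod_type']
  have h1 : ∑ p : (κ → P) × P, F (Function.update p.1 i p.2) =
      ∑ p : (κ → P) × P, F p.1 :=
    Fintype.sum_equiv hf.toPerm _ _ (fun p => rfl)
  rw [h1, Fintype.sum_prod_type]
  simp only [Finset.sum_const, Finset.card_univ, smul_eq_mul]
  rw [Finset.mul_sum]

lemma Far.reindex {ι ι' κ κ' : Type} [Fintype ι] [Fintype κ] [Fintype ι'] [Fintype κ'] {k : ℕ}
    {v : ℝ} {A : ι → κ → ℝ} {b : ι → ℝ} (h : Far k v A b) (e : ι' ≃ ι) (c : κ' ≃ κ) :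
    Far k v (fun i j => A (e i) (c j)) (fun i => b (e i)) := by
  have key : ∀ (x : κ' → ℝ) (i : ι), ∑ j, A i (c j) * x j = ∑ j, A i j * x (c.symm j) := by
    intro x i
    rw [← Equiv.sum_comp c]
    simp
  refine ⟨?_, ?_⟩
  · rintro ⟨x, hx⟩
    apply h.1
    refine ⟨fun j => x (c.symm j), fun i => ?_⟩
    have := hx (e.symm i)
    simp only [Equiv.apply_symm_apply] at this
    rw [← key]
    exact this
  · intro x
    have := h.2 (fun j => x (c.symm j))
    rw [← Equiv.sum_comp e] at this
    simp only [key]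
    exact this

open Classical in
/-- **The chain argument on average.** -/
theorem low {ι : Type} (d lam k q r n M : ℕ) (hd : 1 ≤ d) (hk : 1 ≤ k) (hq : 1 ≤ q)
    (hqd : q ≤ 2 ^ d) (hn : n < 2 ^ lam) (hbig : 2 ^ 63 * k ^ 4 * (lam + 1) ^ 8 * d ^ 8 ≤ n)
    (hM : M = 2 * q * 2 ^ r) (e : ι → Rw M n) {R : Type} [Fintype R] [Nonempty R]
    (T : R → Pool.Agent.TH655.ML.Tree ι) (hT : ∀ ρ, (T ρ).Mono)
    (hr : ∀ ρ, ∀ b : ι → ℝ, Small b → (path b (T ρ) 0).length ≤ r)
    (hyes : ∀ y : Fin M → Set (Fin n × Fin n), (∀ j, BF n (y j)) →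
      (q + 2) * Fintype.card R ≤
        2 * q * (univ.filter (fun ρ => ans (inp e y) (T ρ) 0 = true)).card)
    (hno : ∀ y : Fin M → Set (Fin n × Fin n), (∃ (J : Fin M) (W : Finset (Fin n ⊕ Fin n)),
      2 * k * W.card < n ∧ ∀ p : Fin n × Fin n, Sum.inl p.1 ∉ W ∧ Sum.inr p.2 ∉ W → p ∈ y J) →
      (q + 2) * Fintype.card R ≤
        2 * q * (univ.filter (fun ρ => ans (inp e y) (T ρ) 0 = false)).card) :
    ∃ ρ, ∃ b : ι → ℝ, Small b ∧ 2 ^ d ≤ steps b (T ρ) 0 := by
  by_contra hcon
  push Not at hcon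
  obtain ⟨Ω, hΩ, Wc, hΩ0, hgood, hprog⟩ := match_avg_dual d lam k hd hk hn hbig
  -- abbreviations
  let P := Equiv.Perm (Fin n)
  let U : Ω → Set (Fin n × Fin n) := fun ω => {p | Sum.inl p.1 ∉ Wc ω ∧ Sum.inr p.2 ∉ Wc ω}
  let hit : R → (Fin M → P) → Fin M → Ω → Prop := fun ρ s i ω =>
    path (inp e (Function.update (yv s i) i (U ω))) (T ρ) 0 ≠ path (inp e (yv s i)) (T ρ) 0
  let ch : R → (Fin M → P) → Fin M → Prop := fun ρ s i =>
    path (inp e (yv s (i + 1))) (T ρ) 0 ≠ path (inp e (yv s i)) (T ρ) 0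
  -- upper bound for the hits
  have hup : ∀ ρ s i, (∑ ω, if hit ρ s i ω then 1 else 0) * 2 ^ (d + 3) * Fintype.card P ≤
      Fintype.card Ω * Fintype.card P + Fintype.card Ω * 2 ^ (d + 3) *
        (2 * ∑ σ : P, if ch ρ (Function.update s i σ) i then 1 else 0) := by
    intro ρ s i
    obtain ⟨L, G, hL, hG, hlen, hGX⟩ := prog e (T ρ) (hT ρ) (yv s i) i (yv_self s i)
    have hlen' : L.length + 1 ≤ 2 ^ d := lt_of_le_of_lt hlen (hcon ρ _ (inp_small e _))
    have e1 : {ω : Ω | 1 ≤ G {p | Sum.inl p.1 ∉ Wc ω ∧ Sum.inr p.2 ∉ Wc ω}}.ncard =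
        ∑ ω, if hit ρ s i ω then 1 else 0 := by
      rw [Finset.sum_boole, Nat.cast_id, ← Set.ncard_coe_finset]
      congr 1
      ext ω
      simp only [Set.mem_setOf_eq, Finset.coe_filter, Finset.mem_univ, true_and]
      exact hGX _
    have e2 : {σ : Equiv.Perm (Fin n) | 1 ≤ G {p | σ p.1 ≠ p.2}}.ncard =
        ∑ σ : P, if ch ρ (Function.update s i σ) i then 1 else 0 := by
      rw [Finset.sum_boole, Nat.cast_id, ← Set.ncard_coe_finset]
      congr 1
      ext σ
      simp only [Set.mem_setOf_eq, Finset.coe_filter, Finset.mem_univ, true_and]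
      rw [hGX]
      show _ ↔ path (inp e (yv (Function.update s i σ) (i + 1))) (T ρ) 0 ≠
        path (inp e (yv (Function.update s i σ) i)) (T ρ) 0
      rw [← yv_step (Function.update s i σ) i, yv_update, Function.update_self]
    have h1 := hprog _ (fun b hb => hb) hL hlen' G hG
    rw [e1, e2] at h1
    have hle : (∑ ω, if hit ρ s i ω then 1 else 0) ≤ Fintype.card Ω := by
      rw [Finset.sum_boole, Nat.cast_id]
      exact Finset.card_le_univ _
    rcases h1 with h1 | h1
    · calc _ ≤ Fintype.card Ω * Fintype.card P := Nat.mul_le_mul_right _ h1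
        _ ≤ _ := Nat.le_add_right _ _
    · have h1' : Fintype.card P ≤
          2 * ∑ σ : P, if ch ρ (Function.update s i σ) i then 1 else 0 := by
        rw [mul_comm]
        exact h1
      calc _ ≤ Fintype.card Ω * 2 ^ (d + 3) *
            (2 * ∑ σ : P, if ch ρ (Function.update s i σ) i then 1 else 0) :=
            Nat.mul_le_mul (Nat.mul_le_mul_right _ hle) h1'
        _ ≤ _ := Nat.le_add_left _ _
  -- lower bound for the hits
  have hlow : ∀ s i, 3 * (Fintype.card R * Fintype.card Ω) ≤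
      2 * q * ∑ ρ, ∑ ω, if hit ρ s i ω then 1 else 0 := by
    intro s i
    let gd : Finset Ω := univ.filter (fun ω => 2 * k * (Wc ω).card < n)
    have hgd : 3 * Fintype.card Ω ≤ 4 * gd.card := by
      have h1 : (univ.filter (fun ω => n ≤ 2 * k * (Wc ω).card)).card * 4 ≤ Fintype.card Ω := by
        rw [← Set.ncard_coe_finset]
        refine le_trans (le_of_eq ?_) hgood
        congr 2
        ext ω
        simp
      have h2 := Finset.card_filter_add_card_filter_not (s := (univ : Finset Ω))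
        (fun ω => 2 * k * (Wc ω).card < n)
      rw [Finset.card_univ] at h2
      have h3 : (univ.filter (fun ω => ¬ 2 * k * (Wc ω).card < n)) =
          univ.filter (fun ω => n ≤ 2 * k * (Wc ω).card) := by
        apply Finset.filter_congr
        intro ω _
        exact not_lt
      rw [h3] at h2
      have h4 : gd.card = (univ.filter (fun ω => 2 * k * (Wc ω).card < n)).card := rfl
      omega
    have hω : ∀ ω ∈ gd, 2 * Fintype.card R ≤ q * ∑ ρ, if hit ρ s i ω then 1 else 0 := by
      intro ω hω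
      have h1 := hyes (yv s i) (yv_BF s i)
      have h2 := hno (Function.update (yv s i) i (U ω)) ⟨i, Wc ω, (Finset.mem_filter.1 hω).2,
        fun p hp => by rw [Function.update_self]; exact hp⟩
      set A1 := univ.filter (fun ρ => ans (inp e (yv s i)) (T ρ) 0 = true) with hA1
      set A2 := univ.filter (fun ρ => ans (inp e (Function.update (yv s i) i (U ω))) (T ρ) 0 =
        false) with hA2
      have h3 : (A1 ∩ A2).card ≤ ∑ ρ, if hit ρ s i ω then 1 else 0 := by
        rw [Finset.sum_boole, Nat.cast_id]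
        apply Finset.card_le_card
        intro ρ hρ
        rw [Finset.mem_filter]
        refine ⟨mem_univ _, fun hp => ?_⟩
        have h4 := ans_eq (T ρ) hp
        rw [Finset.mem_inter, hA1, hA2, Finset.mem_filter, Finset.mem_filter] at hρ
        rw [hρ.1.2, hρ.2.2] at h4
        exact absurd h4 (by simp)
      have h4 : A1.card + A2.card ≤ Fintype.card R + (A1 ∩ A2).card := by
        have := Finset.card_union_add_card_inter A1 A2
        have h5 := Finset.card_le_univ (A1 ∪ A2)
        omega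
      have h5 : q * (A1.card + A2.card) ≤ q * Fintype.card R + q * (A1 ∩ A2).card := by
        rw [← mul_add]
        exact Nat.mul_le_mul_left _ h4
      have h6 : q * (A1 ∩ A2).card ≤ q * ∑ ρ, if hit ρ s i ω then 1 else 0 :=
        Nat.mul_le_mul_left _ h3
      have h7 : (q + 2) * Fintype.card R = q * Fintype.card R + 2 * Fintype.card R := by ring
      have h8 : 2 * q * A1.card = 2 * (q * A1.card) := by ring
      have h9 : 2 * q * A2.card = 2 * (q * A2.card) := by ring
      rw [mul_add] at h5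
      omega
    have h1 : gd.card * (2 * Fintype.card R) ≤ q * ∑ ρ, ∑ ω, if hit ρ s i ω then 1 else 0 := by
      calc gd.card * (2 * Fintype.card R) = ∑ ω ∈ gd, 2 * Fintype.card R := by simp
        _ ≤ ∑ ω ∈ gd, q * ∑ ρ, (if hit ρ s i ω then 1 else 0) := Finset.sum_le_sum hω
        _ ≤ ∑ ω, q * ∑ ρ, (if hit ρ s i ω then 1 else 0) :=
            Finset.sum_le_sum_of_subset (Finset.subset_univ _)
        _ = _ := by rw [← Finset.mul_sum, Finset.sum_comm]
    have h2 : 3 * Fintype.card Ω * (2 * Fintype.card R) ≤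
        4 * gd.card * (2 * Fintype.card R) := Nat.mul_le_mul_right _ hgd
    have h3 : 4 * gd.card * (2 * Fintype.card R) = 4 * (gd.card * (2 * Fintype.card R)) := by ring
    have h4 : 3 * Fintype.card Ω * (2 * Fintype.card R) =
        2 * (3 * (Fintype.card R * Fintype.card Ω)) := by ring
    have h5 : 2 * q * ∑ ρ, ∑ ω, (if hit ρ s i ω then 1 else 0) =
        2 * (q * ∑ ρ, ∑ ω, if hit ρ s i ω then 1 else 0) := by ring
    omega
  -- sums over all chains
  set cR := Fintype.card R with hcR
  set cΩ := Fintype.card Ω with hcΩ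
  set cP := Fintype.card P with hcP
  set cS := Fintype.card (Fin M → P) with hcS
  have hP0 : 0 < cP := Fintype.card_pos
  have hR0 : 0 < cR := Fintype.card_pos
  have hS0 : 0 < cS := Fintype.card_pos
  set H := ∑ s : Fin M → P, ∑ i : Fin M, ∑ ρ, ∑ ω, (if hit ρ s i ω then 1 else 0) with hH
  have hl : 3 * (cR * cΩ) * (cS * M) ≤ 2 * q * H := by
    have h1 : ∑ s : Fin M → P, ∑ i : Fin M, 3 * (cR * cΩ) ≤
        ∑ s : Fin M → P, ∑ i : Fin M, 2 * q * ∑ ρ, ∑ ω, (if hit ρ s i ω then 1 else 0) :=
      Finset.sum_le_sum (fun s _ => Finset.sum_le_sum (fun i _ => hlow s i))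
    have h2 : ∑ s : Fin M → P, ∑ i : Fin M, 3 * (cR * cΩ) = 3 * (cR * cΩ) * (cS * M) := by
      rw [Finset.sum_const, Finset.sum_const, Finset.card_univ, Finset.card_univ,
        Fintype.card_fin, smul_eq_mul, smul_eq_mul, ← hcS]
      ring
    have h3 : ∑ s : Fin M → P, ∑ i : Fin M,
        2 * q * ∑ ρ, ∑ ω, (if hit ρ s i ω then 1 else 0) = 2 * q * H := by
      rw [hH, Finset.mul_sum]
      apply Finset.sum_congr rfl
      intro s _
      rw [Finset.mul_sum]
    rw [h2, h3] at h1
    exact h1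
  have hch : ∑ s : Fin M → P, ∑ i : Fin M, ∑ ρ, ∑ σ : P,
      (if ch ρ (Function.update s i σ) i then 1 else 0) ≤ cP * (cS * cR * 2 ^ r) := by
    have h1 : ∀ (i : Fin M) (ρ : R), ∑ s : Fin M → P, ∑ σ : P,
        (if ch ρ (Function.update s i σ) i then 1 else 0) =
        cP * ∑ s : Fin M → P, if ch ρ s i then 1 else 0 := fun i ρ =>
      sum_update i (fun s => if ch ρ s i then 1 else 0)
    calc _ = ∑ i : Fin M, ∑ ρ, ∑ s : Fin M → P, ∑ σ : P,
          (if ch ρ (Function.update s i σ) i then 1 else 0) := by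
          rw [Finset.sum_comm]
          apply Finset.sum_congr rfl
          intro i _
          rw [Finset.sum_comm]
      _ = ∑ i : Fin M, ∑ ρ, cP * ∑ s : Fin M → P, (if ch ρ s i then 1 else 0) := by
          simp only [h1]
      _ = cP * ∑ i : Fin M, ∑ ρ, ∑ s : Fin M → P, (if ch ρ s i then 1 else 0) := by
          simp only [Finset.mul_sum]
      _ = cP * ∑ s : Fin M → P, ∑ ρ, ∑ i : Fin M, (if ch ρ s i then 1 else 0) := by
          congr 1
          rw [Finset.sum_comm]
          rw [Finset.sum_comm (s := (univ : Finset (Fin M → P)))]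
          apply Finset.sum_congr rfl
          intro ρ _
          rw [Finset.sum_comm]
      _ ≤ cP * ∑ s : Fin M → P, ∑ ρ : R, 2 ^ r := by
          apply Nat.mul_le_mul_left
          apply Finset.sum_le_sum
          intro s _
          apply Finset.sum_le_sum
          intro ρ _
          exact change_sum e (T ρ) (hT ρ) r (hr ρ) s
      _ = _ := by
          rw [Finset.sum_const, Finset.sum_const, Finset.card_univ, Finset.card_univ,
            smul_eq_mul, smul_eq_mul]
          ring
  have hu : H * 2 ^ (d + 3) * cP ≤ (cS * M * cR) * (cΩ * cP) +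
      cΩ * 2 ^ (d + 3) * (2 * (cP * (cS * cR * 2 ^ r))) := by
    have h1 : ∑ s : Fin M → P, ∑ i : Fin M, ∑ ρ,
        (∑ ω, if hit ρ s i ω then 1 else 0) * 2 ^ (d + 3) * cP ≤
        ∑ s : Fin M → P, ∑ i : Fin M, ∑ ρ, (cΩ * cP + cΩ * 2 ^ (d + 3) *
        (2 * ∑ σ : P, if ch ρ (Function.update s i σ) i then 1 else 0)) :=
      Finset.sum_le_sum (fun s _ => Finset.sum_le_sum (fun i _ =>
        Finset.sum_le_sum (fun ρ _ => hup ρ s i)))
    have h2 : ∑ s : Fin M → P, ∑ i : Fin M, ∑ ρ,
        (∑ ω, if hit ρ s i ω then 1 else 0) * 2 ^ (d + 3) * cP = H * 2 ^ (d + 3) * cP := by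
      rw [hH]
      simp only [Finset.sum_mul]
    have h3 : ∑ s : Fin M → P, ∑ i : Fin M, ∑ ρ : R, (cΩ * cP + cΩ * 2 ^ (d + 3) *
        (2 * ∑ σ : P, if ch ρ (Function.update s i σ) i then 1 else 0)) =
        (cS * M * cR) * (cΩ * cP) + cΩ * 2 ^ (d + 3) * (2 * ∑ s : Fin M → P, ∑ i : Fin M, ∑ ρ,
          ∑ σ : P, (if ch ρ (Function.update s i σ) i then 1 else 0)) := by
      simp only [Finset.sum_add_distrib, Finset.mul_sum, Finset.sum_const, Finset.card_univ,
        smul_eq_mul, Fintype.card_fin]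
      congr 1
      ring
    rw [h2, h3] at h1
    refine h1.trans ?_
    exact Nat.add_le_add_left (Nat.mul_le_mul_left _ (Nat.mul_le_mul_left _ hch)) _
  -- the contradiction
  have hu' : H * 2 ^ (d + 3) ≤ cS * cR * cΩ * (M + 2 ^ (d + 4) * 2 ^ r) := by
    have h1 : cP * (H * 2 ^ (d + 3)) ≤ cP * (cS * cR * cΩ * (M + 2 ^ (d + 4) * 2 ^ r)) := by
      calc cP * (H * 2 ^ (d + 3)) = H * 2 ^ (d + 3) * cP := by ring
        _ ≤ _ := hu
        _ = _ := by ring
    exact Nat.le_of_mul_le_mul_left h1 hP0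
  have hC : 0 < cS * cR * cΩ := by positivity
  have hfin : (cS * cR * cΩ) * (3 * M * 2 ^ (d + 3)) ≤
      (cS * cR * cΩ) * (2 * q * (M + 2 ^ (d + 4) * 2 ^ r)) := by
    calc (cS * cR * cΩ) * (3 * M * 2 ^ (d + 3)) = 3 * (cR * cΩ) * (cS * M) * 2 ^ (d + 3) := by
          ring
      _ ≤ 2 * q * H * 2 ^ (d + 3) := Nat.mul_le_mul_right _ hl
      _ = 2 * q * (H * 2 ^ (d + 3)) := by ring
      _ ≤ 2 * q * (cS * cR * cΩ * (M + 2 ^ (d + 4) * 2 ^ r)) := Nat.mul_le_mul_left _ hu'
      _ = _ := by ring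
  have hfin' := Nat.le_of_mul_le_mul_left hfin hC
  have hM0 : 0 < M := by rw [hM]; positivity
  have h1 : 2 * q * (M + 2 ^ (d + 4) * 2 ^ r) = M * (2 * q + 2 * 2 ^ (d + 3)) := by
    have : 2 * q * (2 ^ (d + 4) * 2 ^ r) = 2 ^ (d + 4) * M := by rw [hM]; ring
    rw [mul_add, this, pow_succ 2 (d + 3)]
    ring
  rw [h1] at hfin'
  have h2 : M * (3 * 2 ^ (d + 3)) ≤ M * (2 * q + 2 * 2 ^ (d + 3)) := by
    calc _ = 3 * M * 2 ^ (d + 3) := by ring
      _ ≤ _ := hfin'
  have h3 := Nat.le_of_mul_le_mul_left h2 hM0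
  have h4 : 2 ^ (d + 3) = 8 * 2 ^ d := by rw [pow_add]; ring
  have h5 : 0 < 2 ^ d := by positivity
  omega

end Pool.Agent.U141.MG
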